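import Pool.Agent.N883.FF.Fact
import Pool.Agent.N883.DQ.Bk

/-!
# Project FG: diagonal cubic curves, threefolds and fivefolds over number fields: the decomposition of
# the cohomology by point counts, and the Bloch–Kato Selmer groups
-/

set_option autoImplicit false
set_option linter.unusedSectionVars false
set_option linter.unusedVariables false
set_option linter.style.haveILetI false

open scoped Classical

namespace Pool.Agent.N883.FG

open Finset NumberField IsDedekindDomain WeierstrassCurve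
open Pool.Agent.N883.FF
open Pool.Agent.N883.DQ (BZ bz_of ED_ne Cn Dt IsBeta exists_beta Dt_map)
open Pool.Agent.Y696.CTK (ED Tri)
open Pool.Agent.TH841.NF.D (Sha)
open Pool.Agent.Y700 (VR)
open Pool.Agent.H921R2.TatePole (nm two_le_nm)

/-- The solutions, not all zero, of `∑ a i x i ^ 3 = 0` in the field `F`. -/
def sols {m : ℕ} {F : Type} [Field F] (a : Fin m → F) : Set (Fin m → F) :=
  {x | x ≠ 0 ∧ ∑ i, a i * x i ^ 3 = 0}

lemma sols_ncard {m : ℕ} {F : Type} [Field F] [Finite F] (a : Fin m → F) :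
    ((sols a).ncard : ℂ) = (Nat.card (Cn a) : ℂ) - 1 := by
  have h1 : Nat.card (Cn a) = ({x : Fin m → F | ∑ i, a i * x i ^ 3 = 0}).ncard := by
    rw [← Nat.card_coe_set_eq]
    rfl
  have h2 : {x : Fin m → F | ∑ i, a i * x i ^ 3 = 0} = insert 0 (sols a) := by
    ext x
    simp only [Set.mem_ofPred_eq, Set.mem_insert_iff, sols]
    constructor
    · intro h
      by_cases hx : x = 0
      · exact Or.inl hx
      · exact Or.inr ⟨hx, h⟩
    · rintro (rfl | h)
      · simp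
      · exact h.2
  rw [h1, h2, Set.ncard_insert_of_notMem (by simp [sols]) (Set.toFinite _)]
  push_cast
  ring

/-- the decomposition of the cohomology of `∑ a i x i ^ 3 = 0` at the place `v` -/
def DecAt {K : Type} [Field K] [NumberField K] (c : ℕ) (a : Fin (2 * c + 3) → 𝓞 K)
    (v : HeightOneSpectrum (𝓞 K)) : Prop :=
  ∃ β : Finset (Fin (2 * c + 3)) → ℂ,
    (∀ T, β T * (starRingEnd ℂ) (β T) = Ideal.absNorm v.asIdeal ∧
      (Nat.card {P : (𝓞 K ⧸ v.asIdeal) × (𝓞 K ⧸ v.asIdeal) //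
        P.2 ^ 2 + Ideal.Quotient.mk v.asIdeal (Dt a T) * P.2 = P.1 ^ 3} : ℂ) =
          Ideal.absNorm v.asIdeal - (β T + (starRingEnd ℂ) (β T))) ∧
    ∀ (F : Type) [Field F] [Finite F] (f : 𝓞 K →+* F) (r : ℕ), RingHom.ker f = v.asIdeal →
      Nat.card F = Ideal.absNorm v.asIdeal ^ r →
      ((sols fun i => f (a i)).ncard : ℂ) = (Nat.card F - 1) *
        (∑ i ∈ range (2 * c + 2), (Nat.card F : ℂ) ^ i -
          ∑ T ∈ (univ : Finset (Fin (2 * c + 3))).powersetCard c,
            (((Ideal.absNorm v.asIdeal : ℂ) ^ c * β T) ^ r +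
              ((Ideal.absNorm v.asIdeal : ℂ) ^ c * (starRingEnd ℂ) (β T)) ^ r))

/-- **The decomposition.** -/
theorem decAt {K : Type} [Field K] [NumberField K] {c : ℕ} (hc : c ≤ 2)
    (a : Fin (2 * c + 3) → 𝓞 K) (v : HeightOneSpectrum (𝓞 K)) (h3 : (3 : 𝓞 K) ∉ v.asIdeal)
    (ha : ∀ i, a i ∉ v.asIdeal) : DecAt c a v := by
  have hm : v.asIdeal.IsMaximal := v.isMaximal
  letI : Field (𝓞 K ⧸ v.asIdeal) := Ideal.Quotient.field v.asIdeal
  have hq : Nat.card (𝓞 K ⧸ v.asIdeal) = Ideal.absNorm v.asIdeal :=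
    Pool.Agent.R432.V.qv_eq v
  have hfin : Finite (𝓞 K ⧸ v.asIdeal) := by
    refine Nat.finite_of_card_ne_zero ?_
    rw [hq]
    have := two_le_nm v
    have h2 : Ideal.absNorm v.asIdeal = nm v := rfl
    omega
  letI : Fintype (𝓞 K ⧸ v.asIdeal) := Fintype.ofFinite _
  have hcard : Fintype.card (𝓞 K ⧸ v.asIdeal) = Ideal.absNorm v.asIdeal := by
    rw [← Nat.card_eq_fintype_card, hq]
  have hne : ∀ x : 𝓞 K, x ∉ v.asIdeal → Ideal.Quotient.mk v.asIdeal x ≠ 0 := fun x hx => by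
    rwa [Ne, Ideal.Quotient.eq_zero_iff_mem]
  obtain ⟨β, hβ⟩ := exists_beta (𝓞 K ⧸ v.asIdeal) (by
    have := hne 3 h3
    rwa [map_ofNat] at this)
  have hDt : ∀ T, Dt a T ∉ v.asIdeal := by
    intro T h
    unfold Dt at h
    have hpr := v.isPrime
    rcases hpr.mem_or_mem h with h | h
    · obtain ⟨i, -, hi⟩ := (Ideal.IsPrime.prod_mem_iff).1 h
      exact ha i hi
    · obtain ⟨i, -, hi⟩ := (Ideal.IsPrime.prod_mem_iff).1 h
      exact ha i hi
  refine ⟨fun T => β (Ideal.Quotient.mk v.asIdeal (Dt a T)), fun T => ?_,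
    fun F _ _ f r hf hF => ?_⟩
  · obtain ⟨b1, b2⟩ := hβ.2.1 _ (hne _ (hDt T))
    rw [hcard] at b1 b2
    refine ⟨b1, ?_⟩
    rw [b2]
    ring
  · letI alg : Algebra (𝓞 K ⧸ v.asIdeal) F :=
      (Ideal.Quotient.lift v.asIdeal f (fun x hx => by
        rw [← hf] at hx
        exact hx)).toAlgebra
    haveI : Module.Finite (𝓞 K ⧸ v.asIdeal) F := Module.Finite.of_finite
    have hfr : Module.finrank (𝓞 K ⧸ v.asIdeal) F = r := by
      have h5 := Module.natCard_eq_pow_finrank (K := 𝓞 K ⧸ v.asIdeal) (V := F)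
      rw [hF, hq] at h5
      have h2 : 2 ≤ Ideal.absNorm v.asIdeal := two_le_nm v
      exact (Nat.pow_right_injective h2 h5).symm
    have h1 := hβ.2.2 c hc (fun i => Ideal.Quotient.mk v.asIdeal (a i)) (fun i => hne _ (ha i)) F
    have h2 : (fun i => algebraMap (𝓞 K ⧸ v.asIdeal) F (Ideal.Quotient.mk v.asIdeal (a i))) =
        fun i => f (a i) := by
      funext i
      rfl
    have h3 : ∀ T, Dt (fun i => Ideal.Quotient.mk v.asIdeal (a i)) T =
        Ideal.Quotient.mk v.asIdeal (Dt a T) :=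
      fun T => Dt_map (Ideal.Quotient.mk v.asIdeal) a T
    simp only [h3, hfr, hcard] at h1
    rw [h2] at h1
    have h4 := sols_ncard (fun i => f (a i))
    rw [h1] at h4
    have hgeom : ((Nat.card F : ℂ) - 1) * ∑ i ∈ Finset.range (2 * c + 1 + 1), (Nat.card F : ℂ) ^ i =
        (Nat.card F : ℂ) ^ (2 * c + 2) - 1 := by
      rw [mul_comm]
      exact geom_sum_mul _ _
    refine h4.trans ?_
    linear_combination -hgeom

section field
variable {K : Type} [Field K] [NumberField K]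

/-- `H¹_f` of a twist by a cube -/
theorem bz_vr {d d' u : K} (hu : u ≠ 0) (hd : d ≠ 0) (h : d' = d * u ^ 3)
    (hf : Finite (ED d).toAffine.Point) {m : ℕ}
    (hS : ∀ (k : ℕ) (x : Sha (ED d)), (3 ^ k : ℕ) • x = 0 → (3 ^ m : ℕ) • x = 0) :
    BZ (ED d') := by
  have hvr : VR (ED d') (ED d) u 0 0 0 := by
    refine ⟨hu, ?_, ?_, ?_, ?_, ?_⟩ <;> simp [ED]
    rw [h]
    ring
  have hd' : d' ≠ 0 := by
    rw [h]
    exact mul_ne_zero hd (pow_ne_zero 3 hu)
  have hΔ : (ED d).Δ ≠ 0 := ED_ne hd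
  have hfin : Finite (ED d').toAffine.Point :=
    Finite.of_equiv _ (hvr.equiv hΔ).toEquiv
  let I : Sha (ED d) ≃+ Sha (ED d') := (Pool.Agent.Y655.XT.isoVR hvr hΔ).sha
  refine bz_of (ED_ne hd') hfin m fun k x hx => ?_
  have h1 := hS k (I.symm x) (by rw [← map_nsmul, hx, map_zero])
  rw [← map_nsmul] at h1
  have h2 := congrArg I h1
  rwa [I.apply_symm_apply, map_zero] at h2

end field

/-- both twists -/
theorem both_fam (B : PartsB) {K : Type} [Field K] [NumberField K] [IsCyclotomicExtension {3} ℚ K]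
    {D : 𝓞 K} (hD : FamK D) (hx : NxK D) (ht : Tri D) : Tri (D ^ 2) ∧ Tri (1 : 𝓞 K) := by
  obtain ⟨⟨j, hj⟩, -⟩ := Pool.Agent.Y455.CTK.jex K
  obtain ⟨z, rfl⟩ := j.surjective D
  obtain ⟨i, n, π, e, hdt, rfl⟩ := fam_data ((famK_iff j _).1 hD)
  constructor
  · by_cases hi : i = 0
    · subst hi
      have h9 := nx_nine hdt ((nxK_iff j hj _).1 hx)
      have e1 : pB π e 0 = Pool.Agent.Y703.CT.pD π e := by
        unfold pB
        rw [ZMod.val_zero, pow_zero, one_mul]
      rw [e1] at ht ⊢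
      have hk := (Pool.Agent.R419.KF.tri_iff j Pool.Agent.Y696.CTK.parts hdt h9).1 ht
      have hb := (Pool.Agent.R419.CE.both Pool.Agent.Y696.CTK.parts j hdt hk h9).2
      rw [map_pow] at hb
      exact hb
    · have hk := (tri_iffB B j hdt hi).1 ht
      have hb := (bothB B j hdt hi hk).2
      rw [map_pow] at hb
      exact hb
  · have key : ∀ d : K, d = 1 → (Finite (ED d).toAffine.Point ∧
        ∀ (n : ℕ) (x : Sha (ED d)), 3 ^ n • x = 0 → x = 0) := by
      rintro _ rfl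
      exact ⟨Pool.Agent.Y696.CTE.fin_one, Pool.Agent.Y696.CTE.partsE.sh1 K j⟩
    exact key _ (map_one _)

end Pool.Agent.N883.FG
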