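import Pool.Agent.N883.FG.Bk

/-!
# Project FG: diagonal cubic hypersurfaces with coefficients in the group generated by `D` and the cubes
-/

set_option autoImplicit false
set_option linter.unusedSectionVars false
set_option linter.unusedVariables false
set_option linter.style.haveILetI false

open scoped Classical

namespace Pool.Agent.N883.FG

open Finset NumberField IsDedekindDomain WeierstrassCurve
open Pool.Agent.N883.FF
open Pool.Agent.N883.DQ (BZ bz_of ED_ne Dt)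
open Pool.Agent.Y696.CTK (ED Tri)
open Pool.Agent.TH841.NF.D (Sha)

/-- `a` is in the group generated by `D` and the cubes -/
def InG {R : Type} [CommRing R] (D a : R) : Prop :=
  ∃ (m : ℕ) (y z : R), y ≠ 0 ∧ z ≠ 0 ∧ a * y ^ 3 = D ^ m * z ^ 3

section ring
variable {R : Type} [CommRing R] [IsDomain R]

lemma inG_one {D : R} : InG D 1 := ⟨0, 1, 1, one_ne_zero, one_ne_zero, by ring⟩

lemma inG_mul {D a b : R} (ha : InG D a) (hb : InG D b) : InG D (a * b) := by
  obtain ⟨m, y, z, hy, hz, h⟩ := ha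
  obtain ⟨m', y', z', hy', hz', h'⟩ := hb
  refine ⟨m + m', y * y', z * z', mul_ne_zero hy hy', mul_ne_zero hz hz', ?_⟩
  rw [pow_add]
  linear_combination (b * y' ^ 3) * h + (D ^ m * z ^ 3) * h'

lemma inG_prod {ι : Type} {D : R} (s : Finset ι) {f : ι → R} (h : ∀ i ∈ s, InG D (f i)) :
    InG D (∏ i ∈ s, f i) := by
  induction s using Finset.induction_on with
  | empty => rw [Finset.prod_empty]; exact inG_one
  | insert a s ha ih =>
    rw [Finset.prod_insert ha]
    exact inG_mul (h a (Finset.mem_insert_self _ _))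
      (ih fun i hi => h i (Finset.mem_insert_of_mem hi))

lemma inG_Dt {m : ℕ} {D : R} {a : Fin m → R} (h : ∀ i, InG D (a i)) (T : Finset (Fin m)) :
    InG D (Dt a T) :=
  inG_mul (inG_prod _ fun i _ => h i) (inG_prod _ fun i _ => h i)

end ring

/-- the hypersurface over `L`: the decomposition at all the places of good reduction, and both sides
are zero for all the curves of the decomposition -/
def Good (L : Type) [Field L] [NumberField L] (c : ℕ) (a : Fin (2 * c + 3) → 𝓞 L) : Prop :=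
  (∀ v : HeightOneSpectrum (𝓞 L), (3 : 𝓞 L) ∉ v.asIdeal → (∀ i, a i ∉ v.asIdeal) →
    DecAt c a v) ∧
  ∀ T : Finset (Fin (2 * c + 3)), T.card = c → BZ (ED ((Dt a T : 𝓞 L) : L))

section field
variable {K : Type} [Field K] [NumberField K]

/-- the twists by the powers of `D` and the cubes -/
theorem bz_inG {D δ : 𝓞 K} (hD0 : D ≠ 0) (h1 : Tri (1 : 𝓞 K)) (hD : Tri D) (hD2 : Tri (D ^ 2))
    (h : InG D δ) : BZ (ED (δ : K)) := by
  obtain ⟨m, y, z, hy, hz, h⟩ := h
  have c0 : ∀ x : 𝓞 K, x ≠ 0 → (x : K) ≠ 0 := fun x hx h => hx (RingOfIntegers.ext (by rw [h]; rfl))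
  have hyK := c0 y hy
  have hzK := c0 z hz
  have hDK := c0 D hD0
  have hK : (δ : K) * (y : K) ^ 3 = (D : K) ^ m * (z : K) ^ 3 := by
    have := congrArg (fun x : 𝓞 K => (x : K)) h
    push_cast at this
    exact this
  -- the exponent modulo three
  obtain ⟨q, r, hr, rfl⟩ : ∃ q r : ℕ, r < 3 ∧ m = 3 * q + r :=
    ⟨m / 3, m % 3, Nat.mod_lt _ (by norm_num), (Nat.div_add_mod m 3).symm⟩
  set u : K := (D : K) ^ q * z / y with hu
  have hu0 : u ≠ 0 := div_ne_zero (mul_ne_zero (pow_ne_zero _ hDK) hzK) hyK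
  have hδ : (δ : K) = (D : K) ^ r * u ^ 3 := by
    have hy3 : (y : K) ^ 3 ≠ 0 := pow_ne_zero 3 hyK
    rw [hu, div_pow, ← mul_div_assoc, eq_div_iff hy3, hK]
    rw [pow_add, pow_mul']
    ring
  have key : ∀ (e : 𝓞 K), e ≠ 0 → Tri e → (δ : K) = (e : K) * u ^ 3 → BZ (ED (δ : K)) := by
    intro e he ht hee
    refine bz_vr (m := 0) hu0 (c0 e he) hee ht.1 fun k x hx => ?_
    rw [pow_zero, one_smul]
    exact ht.2 k x hx
  interval_cases r
  · refine key 1 one_ne_zero h1 ?_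
    rw [hδ]
    simp
  · refine key D hD0 hD ?_
    rw [hδ, pow_one]
  · refine key (D ^ 2) (pow_ne_zero 2 hD0) hD2 ?_
    rw [hδ]
    push_cast
    ring

/-- the twists over the extension -/
theorem bz_ext {F : Type} [Field F] [NumberField F] [Algebra K F] {D δ : 𝓞 K} (hD0 : D ≠ 0)
    {θ : F} (hθ : θ ^ 3 = algebraMap K F D) (hf : Finite (ED (1 : F)).toAffine.Point)
    (hS : ∀ (n : ℕ) (x : Sha (ED (1 : F))), 3 ^ n • x = 0 → 3 • x = 0)
    (h : InG D δ) : BZ (ED ((algebraMap (𝓞 K) (𝓞 F) δ : 𝓞 F) : F)) := by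
  obtain ⟨m, y, z, hy, hz, h⟩ := h
  have c0 : ∀ x : 𝓞 K, x ≠ 0 → algebraMap K F (x : K) ≠ 0 := fun x hx h => hx (by
    have h1 : (x : K) = 0 := (map_eq_zero _).1 h
    exact RingOfIntegers.ext (by rw [h1]; rfl))
  have hyF := c0 y hy
  have hzF := c0 z hz
  have hDF := c0 D hD0
  have hθ0 : θ ≠ 0 := by
    rintro rfl
    apply hDF
    rw [← hθ]
    ring
  have hF : algebraMap K F (δ : K) * (algebraMap K F (y : K)) ^ 3 =
      (algebraMap K F (D : K)) ^ m * (algebraMap K F (z : K)) ^ 3 := by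
    have := congrArg (fun x : 𝓞 K => algebraMap K F (x : K)) h
    push_cast at this
    simpa only [map_mul, map_pow] using this
  have hcoe : ((algebraMap (𝓞 K) (𝓞 F) δ : 𝓞 F) : F) = algebraMap K F (δ : K) :=
    (IsScalarTower.algebraMap_apply (𝓞 K) (𝓞 F) F δ).symm.trans
      (IsScalarTower.algebraMap_apply (𝓞 K) K F δ)
  set u : F := θ ^ m * algebraMap K F (z : K) / algebraMap K F (y : K) with hu
  have hu0 : u ≠ 0 := div_ne_zero (mul_ne_zero (pow_ne_zero _ hθ0) hzF) hyF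
  have hδ : ((algebraMap (𝓞 K) (𝓞 F) δ : 𝓞 F) : F) = 1 * u ^ 3 := by
    have hy3 : (algebraMap K F (y : K)) ^ 3 ≠ 0 := pow_ne_zero 3 hyF
    rw [hcoe, hu, div_pow, ← mul_div_assoc, eq_div_iff hy3, hF, ← hθ]
    ring
  refine bz_vr (m := 1) hu0 one_ne_zero hδ hf fun k x hx => ?_
  rw [pow_one]
  exact hS k x hx

end field

/-- **The final statement.** -/
theorem finalBK (B : PartsB)
    (K : Type) [Field K] [NumberField K] [IsCyclotomicExtension {3} ℚ K]
    (hfin : ∀ D : 𝓞 K, FamK D → NxK D → FactsF D)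
    {D : 𝓞 K} (hD : FamK D) (hx : NxK D) (ht : Tri D) (c : ℕ) (hc : c ≤ 2)
    (a : Fin (2 * c + 3) → 𝓞 K) (ha : ∀ i, InG D (a i)) :
    Good K c a ∧
      ∀ (F : Type) [Field F] [NumberField F] [Algebra K F] (θ : F),
        Module.finrank K F = 3 → θ ^ 3 = algebraMap K F D →
        Good F c (fun i => algebraMap (𝓞 K) (𝓞 F) (a i)) := by
  obtain ⟨h2, h1⟩ := both_fam B hD hx ht
  have hD0 : D ≠ 0 := by
    rintro rfl
    exact not_isUnit_zero (hD.2.1 0 (by rw [zero_pow three_ne_zero]))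
  obtain ⟨-, -, -, -, a5⟩ := hfin D hD hx
  obtain ⟨-, a6⟩ := a5 ht
  refine ⟨⟨fun v h3 hv => decAt hc a v h3 hv, fun T _ => bz_inG hD0 h1 ht h2 (inG_Dt ha T)⟩,
    fun F _ _ _ θ hd hθ => ⟨fun v h3 hv => decAt hc _ v h3 hv, fun T _ => ?_⟩⟩
  have hDt : Dt (fun i => algebraMap (𝓞 K) (𝓞 F) (a i)) T =
      algebraMap (𝓞 K) (𝓞 F) (Dt a T) := Pool.Agent.N883.DQ.Dt_map (algebraMap (𝓞 K) (𝓞 F)) a T
  rw [hDt]
  obtain ⟨b1, b2⟩ := a6 F θ hd hθ
  exact bz_ext hD0 hθ b1.2.1 b2 (inG_Dt ha T)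

end Pool.Agent.N883.FG
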